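import Pool.Agent.Helper95.KZ.Goals

set_option autoImplicit false

namespace Pool.Agent.Helper77.KZ

open Pool.Agent.Helper52.Wq2 Pool.Agent.Helper61.NW Pool.Agent.Helper95.KZ

universe u

variable {Γ : Type u} [Group Γ] {S : Set Γ}

theorem adj_left (S : Set Γ) (g x y : Γ) : (cay S).Adj (g * x) (g * y) ↔ (cay S).Adj x y := by
  unfold cay
  rw [SimpleGraph.fromRel_adj, SimpleGraph.fromRel_adj]
  simp only [ne_eq, mul_right_inj, mul_inv_rev, mul_assoc, inv_mul_cancel_left]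

/-- Translates of connected sets are connected. -/
theorem conn_left {B : Set Γ} (hB : Conn (cay S) B) (g : Γ) :
    Conn (cay S) {y | ∃ x ∈ B, y = g * x} := by
  constructor
  · obtain ⟨x, hx⟩ := hB.1
    exact ⟨g * x, x, hx, rfl⟩
  intro A hsub hne hcl
  have h := hB.2 {x | x ∈ B ∧ g * x ∈ A} (fun x hx => hx.1) (by
    obtain ⟨y, hy⟩ := hne
    obtain ⟨x, hx, rfl⟩ := hsub hy
    exact ⟨x, hx, hy⟩) (by
    rintro x ⟨_, hx⟩ y hy hxy
    exact ⟨hy, hcl _ hx _ ⟨y, hy, rfl⟩ ((adj_left S g x y).2 hxy)⟩)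
  rintro _ ⟨x, hx, rfl⟩
  exact (h hx).2

/-- **SLC.** -/
theorem slc : SlcStmt.{u} := by
  intro Γ _ S a b k B hP P hne hconv
  have tile : ∀ i j : ℤ, Conn (cay S) {y | ∃ x ∈ B, y = a ^ i * b ^ j * x} :=
    fun i j => conn_left hP.conn _
  have hab : ∀ i j : ℤ, a ^ i * b ^ j * a = a ^ (i + 1) * b ^ j := by
    intro i j
    have : Commute a (b ^ j) := Commute.zpow_right hP.ab j
    rw [mul_assoc, ← this.eq, ← mul_assoc, zpow_add_one]
  have hbb : ∀ i j : ℤ, a ^ i * b ^ j * b = a ^ i * b ^ (j + 1) := by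
    intro i j
    rw [mul_assoc, ← zpow_add_one]
  constructor
  · obtain ⟨j, hj⟩ := hne
    exact ⟨a ^ (0 : ℤ) * b ^ j * 1, 0, j, hj, 1, hP.one, rfl⟩
  intro A hsub hA hcl
  have full : ∀ i j : ℤ, P j → ∀ x ∈ B, a ^ i * b ^ j * x ∈ A →
      ∀ y ∈ B, a ^ i * b ^ j * y ∈ A := by
    intro i j hj x hx hxA y hy
    have h := (tile i j).2 {z | (∃ x ∈ B, z = a ^ i * b ^ j * x) ∧ z ∈ A} (fun z hz => hz.1)
      ⟨_, ⟨x, hx, rfl⟩, hxA⟩ (by
        rintro u ⟨_, hu⟩ v ⟨w, hw, rfl⟩ huv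
        exact ⟨⟨w, hw, rfl⟩, hcl _ hu _ ⟨i, j, hj, w, hw, rfl⟩ huv⟩)
    exact (h ⟨y, hy, rfl⟩).2
  -- neighbours
  have r1 : ∀ i j : ℤ, P j → a ^ i * b ^ j * 1 ∈ A → a ^ (i + 1) * b ^ j * 1 ∈ A := by
    intro i j hj h
    have := full i j hj 1 hP.one h a hP.ha
    rw [hab] at this
    rwa [mul_one]
  have l1 : ∀ i j : ℤ, P j → a ^ (i + 1) * b ^ j * 1 ∈ A → a ^ i * b ^ j * 1 ∈ A := by
    intro i j hj h
    rw [mul_one, ← hab] at h
    exact full i j hj a hP.ha h 1 hP.one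
  have u1 : ∀ i j : ℤ, P j → a ^ i * b ^ j * 1 ∈ A → a ^ i * b ^ (j + 1) * 1 ∈ A := by
    intro i j hj h
    have := full i j hj 1 hP.one h b hP.hb
    rw [hbb] at this
    rwa [mul_one]
  have d1 : ∀ i j : ℤ, P j → a ^ i * b ^ (j + 1) * 1 ∈ A → a ^ i * b ^ j * 1 ∈ A := by
    intro i j hj h
    rw [mul_one, ← hbb] at h
    exact full i j hj b hP.hb h 1 hP.one
  have hor : ∀ (d : ℕ) (i j : ℤ), P j → a ^ i * b ^ j * 1 ∈ A →
      a ^ (i + d) * b ^ j * 1 ∈ A ∧ a ^ (i - d) * b ^ j * 1 ∈ A := by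
    intro d
    induction d with
    | zero => intro i j _ h; simpa using h
    | succ d ih =>
      intro i j hj h
      obtain ⟨h1, h2⟩ := ih i j hj h
      constructor
      · have := r1 _ j hj h1
        have e : i + (d : ℤ) + 1 = i + ((d + 1 : ℕ) : ℤ) := by push_cast; ring
        rwa [e] at this
      · refine l1 _ j hj ?_
        have e : i - ((d + 1 : ℕ) : ℤ) + 1 = i - (d : ℤ) := by push_cast; ring
        rwa [e]
  have ver : ∀ (d : ℕ) (i j : ℤ), P j → P (j + d) → a ^ i * b ^ j * 1 ∈ A →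
      a ^ i * b ^ (j + d) * 1 ∈ A := by
    intro d
    induction d with
    | zero => intro i j _ _ h; simpa using h
    | succ d ih =>
      intro i j hj hj' h
      have hj2 : P (j + d) := hconv j (j + d) _ hj hj' (by omega) (by push_cast; omega)
      have := u1 i _ hj2 (ih i j hj hj2 h)
      have e : j + (d : ℤ) + 1 = j + ((d + 1 : ℕ) : ℤ) := by push_cast; ring
      rwa [e] at this
  have ver2 : ∀ (d : ℕ) (i j : ℤ), P j → P (j + d) → a ^ i * b ^ (j + d) * 1 ∈ A →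
      a ^ i * b ^ j * 1 ∈ A := by
    intro d
    induction d with
    | zero => intro i j _ _ h; simpa using h
    | succ d ih =>
      intro i j hj hj' h
      have hj2 : P (j + d) := hconv j (j + d) _ hj hj' (by omega) (by push_cast; omega)
      refine ih i j hj hj2 (d1 i _ hj2 ?_)
      have e : j + (d : ℤ) + 1 = j + ((d + 1 : ℕ) : ℤ) := by push_cast; ring
      rwa [e]
  obtain ⟨g, hg⟩ := hA
  obtain ⟨i, j, hj, x, hx, rfl⟩ := hsub hg
  have h0 := full i j hj x hx hg 1 hP.one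
  rintro _ ⟨i', j', hj', y, hy, rfl⟩
  have h1 : a ^ i' * b ^ j * 1 ∈ A := by
    rcases le_total i i' with h | h
    · have := (hor (i' - i).toNat i j hj h0).1
      have e : i + ((i' - i).toNat : ℤ) = i' := by omega
      rwa [e] at this
    · have := (hor (i - i').toNat i j hj h0).2
      have e : i - ((i - i').toNat : ℤ) = i' := by omega
      rwa [e] at this
  have h2 : a ^ i' * b ^ j' * 1 ∈ A := by
    rcases le_total j j' with h | h
    · have e : j + ((j' - j).toNat : ℤ) = j' := by omega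
      have := ver (j' - j).toNat i' j hj (by rwa [e]) h1
      rwa [e] at this
    · have e : j' + ((j - j').toNat : ℤ) = j := by omega
      exact ver2 (j - j').toNat i' j' hj' (by rwa [e]) (by rwa [e])
  exact full i' j' hj' 1 hP.one h2 y hy

end Pool.Agent.Helper77.KZ
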